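import Pool.Agent.H902Z.ME.Medium

set_option autoImplicit false

namespace Pool.Agent.Results.MP_ef05c8_mp.AMedium

open Pool.Agent.H902Z.ME

/-- The Medium Equation has no integrable solution with values in `[0, 1]` at high density, for
every admissible potential whose Fourier transform drops by more than a factor `4` between some
frequency `w` and `2 w`; the Gaussian potential is such a potential in every dimension. -/
theorem result (d : ℕ) (hd : 1 ≤ d) (m : ℝ) (hm : 0 < m) :
    (∀ v : Rd d → ℝ, Admissible v →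
      (∃ w : Rd d, 4 * ‖FourierTransform.fourier (fun x => (v x : ℂ)) ((2 : ℝ) • w)‖ <
        ‖FourierTransform.fourier (fun x => (v x : ℂ)) w‖) →
      ∃ ρ0 : ℝ, 0 < ρ0 ∧ ∀ ρ : ℝ, ρ0 ≤ ρ →
        ¬ ∃ u : Rd d → ℝ, IsSolution m u (mediumRHS ρ v u)) ∧
    Admissible (fun x : Rd d => Real.exp (-‖x‖ ^ 2)) ∧
      ∃ w : Rd d, 4 * ‖FourierTransform.fourier
          (fun x : Rd d => ((Real.exp (-‖x‖ ^ 2) : ℝ) : ℂ)) ((2 : ℝ) • w)‖ <
        ‖FourierTransform.fourier (fun x : Rd d => ((Real.exp (-‖x‖ ^ 2) : ℝ) : ℂ)) w‖ :=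
  medium_main hd hm

end Pool.Agent.Results.MP_ef05c8_mp.AMedium
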