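import Pool.Agent.H902Z.ME.Pot

set_option autoImplicit false

namespace Pool.Agent.Results.MP_ef05c8_mp.BBig

open Pool.Agent.H902Z.ME

/-- In every dimension and for every mass, the admissible potential `pot d` is such that the Big
Equation has no integrable solution with values in `[0, 1]` at high density. -/
theorem result (d : ℕ) (hd : 1 ≤ d) (m : ℝ) (hm : 0 < m) :
    Admissible (pot d) ∧
      ∃ ρ0 : ℝ, 0 < ρ0 ∧ ∀ ρ : ℝ, ρ0 ≤ ρ →
        ¬ ∃ u : Rd d → ℝ, IsSolution m u (bigRHS ρ (pot d) u) :=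
  big_main hd hm

end Pool.Agent.Results.MP_ef05c8_mp.BBig
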